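import Pool.Agent.H3.RB.Stm

set_option autoImplicit false

open scoped ENNReal Topology
open MeasureTheory Filter

namespace Pool.Agent.H14.RB

open Pool.Agent.H3.RB

theorem t_ASB : S_ASB := by
  intro δ k hδ hk
  have hlog : Tendsto (fun n : ℕ => Real.log n) atTop atTop :=
    Real.tendsto_log_atTop.comp tendsto_natCast_atTop_atTop
  have h1 : Tendsto (fun n : ℕ => (Real.log n)⁻¹) atTop (𝓝 0) := tendsto_inv_atTop_zero.comp hlog
  have h2 : Tendsto (fun n : ℕ => Real.exp (-(δ * Real.log n))) atTop (𝓝 0) := by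
    refine Real.tendsto_exp_atBot.comp ?_
    exact tendsto_neg_atTop_atBot.comp (hlog.const_mul_atTop hδ)
  have h3 : Tendsto (fun n : ℕ => k * ((Real.log n)⁻¹ * Real.exp (-(δ * Real.log n)))) atTop
      (𝓝 (k * (0 * 0))) := (h1.mul h2).const_mul k
  simp only [mul_zero] at h3
  refine h3.congr' ?_
  filter_upwards [eventually_gt_atTop 1] with n hn
  have hn0 : (0 : ℝ) < n := by exact_mod_cast (lt_trans zero_lt_one hn)
  have hn1 : (1 : ℝ) < n := by exact_mod_cast hn
  have hl : 0 < Real.log n := Real.log_pos hn1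
  have e1 : Real.exp (-((1 + δ) * Real.log n)) = (n : ℝ)⁻¹ * Real.exp (-(δ * Real.log n)) := by
    have : -((1 + δ) * Real.log n) = -Real.log n + -(δ * Real.log n) := by ring
    rw [this, Real.exp_add, Real.exp_neg, Real.exp_log hn0]
  rw [e1]
  field_simp

end Pool.Agent.H14.RB
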