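import Pool.Agent.H3.RB.Stm

set_option autoImplicit false

open scoped ENNReal Topology
open MeasureTheory Filter

namespace Pool.Agent.H14.RB

open Pool.Agent.H3.RB

theorem t_B : S_B := by
  intro hPRB hCEL hWIN hBDT hASB d w c hd hw hc hwc hρ
  obtain ⟨ρ, hρ0, hStr⟩ := hρ
  obtain ⟨κ, C, hκ, hC, hcells⟩ := hCEL d hd
  -- choice of eta
  have hcont : Tendsto (fun η : ℝ => w * c ^ d * (1 - 4 * η) ^ d) (𝓝[>] 0) (𝓝 (w * c ^ d)) := by
    have : Tendsto (fun η : ℝ => w * c ^ d * (1 - 4 * η) ^ d) (𝓝 0)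
        (𝓝 (w * c ^ d * (1 - 4 * 0) ^ d)) := by
      apply Continuous.tendsto
      fun_prop
    simp only [mul_zero, sub_zero, one_pow, mul_one] at this
    exact this.mono_left nhdsWithin_le_nhds
  have hev1 : ∀ᶠ η in 𝓝[>] (0 : ℝ), 1 < w * c ^ d * (1 - 4 * η) ^ d :=
    hcont.eventually (lt_mem_nhds hwc)
  have hev2 : ∀ᶠ η in 𝓝[>] (0 : ℝ), η < 1 / 8 := by
    have : ∀ᶠ η in 𝓝 (0 : ℝ), η < 1 / 8 := gt_mem_nhds (by norm_num)
    exact this.filter_mono nhdsWithin_le_nhds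
  have hev3 : ∀ᶠ η in 𝓝[>] (0 : ℝ), 0 < η := self_mem_nhdsWithin
  obtain ⟨η, ⟨hη1, hη2⟩, hη3⟩ := ((hev1.and hev2).and hev3).exists
  obtain ⟨δ, hδ⟩ : ∃ δ : ℝ, 1 + δ = w * c ^ d * (1 - 4 * η) ^ d :=
    ⟨w * c ^ d * (1 - 4 * η) ^ d - 1, by ring⟩
  have hδ0 : 0 < δ := by linarith
  -- choice of M
  have hkk : 0 < κ * η ^ d * c ^ d := by positivity
  obtain ⟨M, hM⟩ := exists_nat_ge ((1 + δ) / (κ * η ^ d * c ^ d))
  have hM' : 1 + δ ≤ M * (κ * η ^ d * c ^ d) := by
    rwa [div_le_iff₀ hkk] at hM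
  obtain ⟨W, hW⟩ := exists_nat_ge (2 * (1 + 2 * 1000 ^ (M + 1) / η) ^ (d + 1) : ℝ)
  have hd0 : (0 : ℝ) < d := by exact_mod_cast (lt_of_lt_of_le zero_lt_one hd)
  -- limits
  have hlog : Tendsto (fun n : ℕ => Real.log n / (n : ℝ)) atTop (𝓝 0) := by
    have h := Real.isLittleO_log_id_atTop.tendsto_div_nhds_zero
    exact h.comp tendsto_natCast_atTop_atTop
  have hbn : Tendsto (fun n : ℕ => bn d c n) atTop (𝓝 0) := by
    have h1 : Tendsto (fun t : ℝ => c * t ^ ((1 : ℝ) / d)) (𝓝 0) (𝓝 (c * 0 ^ ((1 : ℝ) / d))) := by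
      apply Tendsto.const_mul
      exact (Real.continuousAt_rpow_const 0 ((1 : ℝ) / d) (Or.inr (by positivity))).tendsto
    have h2 := h1.comp hlog
    rw [Real.zero_rpow (by positivity), mul_zero] at h2
    exact h2
  have hA := hASB δ (2 ^ W * (C / (η ^ d * c ^ d))) hδ0 (by positivity)
  have hA' : Tendsto (fun n : ℕ => ENNReal.ofReal ((2 ^ W * (C / (η ^ d * c ^ d))) *
      ((n : ℝ) / Real.log n) * Real.exp (-((1 + δ) * Real.log n)))) atTop (𝓝 0) := by
    have := ENNReal.tendsto_ofReal hA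
    simpa using this
  refine tendsto_of_tendsto_of_tendsto_of_le_of_le' tendsto_const_nhds hA'
    (Eventually.of_forall fun n => zero_le) ?_
  have e1 : ∀ᶠ n : ℕ in atTop, bn d c n < min (1 / η) (ρ / (2 * 1000 ^ M)) :=
    hbn.eventually (gt_mem_nhds (by positivity))
  filter_upwards [eventually_gt_atTop 1, e1] with n hn hbn1
  have hn0 : (0 : ℝ) < n := by exact_mod_cast (lt_trans zero_lt_one hn)
  have hn1 : (1 : ℝ) < n := by exact_mod_cast hn
  have hl : 0 < Real.log n := Real.log_pos hn1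
  set b := bn d c n with hb
  have hb0 : 0 < b := by
    rw [hb]; unfold bn; positivity
  have hbd : b ^ d = c ^ d * (Real.log n / n) := by
    rw [hb]; unfold bn
    rw [mul_pow, ← Real.rpow_natCast ((Real.log n / n) ^ ((1 : ℝ) / d)) d, ← Real.rpow_mul
      (by positivity)]
    congr 1
    rw [one_div, inv_mul_cancel₀ hd0.ne', Real.rpow_one]
  have hs0 : 0 < η * b := by positivity
  have hs1 : η * b ≤ 1 := by
    have : b ≤ 1 / η := (hbn1.trans_le (min_le_left _ _)).le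
    rw [le_div_iff₀ hη3] at this
    linarith
  have hρ1 : 2 * 1000 ^ M * b < ρ := by
    have : b < ρ / (2 * 1000 ^ M) := hbn1.trans_le (min_le_right _ _)
    rw [lt_div_iff₀ (by positivity)] at this
    linarith
  obtain ⟨m, z, Q, hcell⟩ := hcells (η * b) hs0 hs1
  set τ : ℝ := (1 + δ) * (Real.log n / n) with hτ
  have hτ0 : 0 ≤ τ := by positivity
  -- number of cells in a window
  have hcard : ∀ j, (Finset.univ.filter fun k => Dp (z j) (z k) ≤ 1000 ^ (M + 1) * b).card ≤ W := by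
    intro j
    have h := hcell.loc (1000 ^ (M + 1) * b) j (by positivity)
    have h2 : 2 * (1 + 2 * (1000 ^ (M + 1) * b) / (η * b)) ^ (d + 1)
        = 2 * (1 + 2 * 1000 ^ (M + 1) / η) ^ (d + 1) := by
      congr 2
      field_simp
    rw [h2] at h
    exact_mod_cast h.trans hW
  have hwin := hWIN d κ C (η * b) m z Q (hPRB d) hcell n W (1000 ^ (M + 1) * b) τ hτ0 hcard
  -- inclusion
  have hsub : {x : Fin n → Sph d | ColX b x} ⊆ {x | ∃ (j : Fin m) (T : Finset (Fin m)),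
      (∀ k ∈ T, Dp (z j) (z k) ≤ 1000 ^ (M + 1) * b) ∧
          (∀ k ∈ T, ∀ i, x i ∉ Q k) ∧ ENNReal.ofReal τ < unif d (⋃ k ∈ T, Q k)} := by
    intro x hx
    by_contra hcon
    simp only [Set.mem_ofPred_eq, not_exists, not_and, not_lt] at hcon
    have hx' : ColX b x := hx
    have key := hBDT d κ C b η m z Q hd hκ hb0 hη3 hη2.le hcell n M x τ w ρ hx' ?_ ?_ hρ1.le
      (fun j T h1 h2 => hcon j T h1 h2)
    · refine hStr ((1 - 4 * η) * b) ?_ ?_ key
      · have : 0 < 1 - 4 * η := by linarith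
        positivity
      · have h1 : (1 - 4 * η) * b ≤ 1 * b := by
          apply mul_le_mul_of_nonneg_right _ hb0.le
          linarith
        have h2 : (1 : ℝ) * b ≤ 2 * 1000 ^ M * b := by
          apply mul_le_mul_of_nonneg_right _ hb0.le
          have : (1 : ℝ) ≤ 1000 ^ M := one_le_pow₀ (by norm_num)
          linarith
        linarith
    · have e : (M : ℝ) * (κ * (η * b) ^ d) = (M * (κ * η ^ d * c ^ d)) * (Real.log n / n) := by
        rw [mul_pow, hbd]; ring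
      rw [e, hτ]
      exact mul_le_mul_of_nonneg_right hM' (by positivity)
    · rw [mul_pow, hbd, hτ, hδ]
      apply le_of_eq; ring
  refine (measure_mono hsub).trans (hwin.trans ?_)
  apply ENNReal.ofReal_le_ofReal
  have hnτ : (n : ℝ) * τ = (1 + δ) * Real.log n := by
    rw [hτ]; field_simp
  rw [hnτ]
  apply mul_le_mul_of_nonneg_right _ (Real.exp_pos _).le
  have hm := hcell.num
  have e2 : C / (η * b) ^ d = C / (η ^ d * c ^ d) * ((n : ℝ) / Real.log n) := by
    rw [mul_pow, hbd]; field_simp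
  rw [e2] at hm
  calc (m : ℝ) * 2 ^ W ≤ (C / (η ^ d * c ^ d) * ((n : ℝ) / Real.log n)) * 2 ^ W :=
        mul_le_mul_of_nonneg_right hm (by positivity)
    _ = _ := by ring

end Pool.Agent.H14.RB
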