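import Pool.Agent.H3.RB.Stm

set_option autoImplicit false

open scoped ENNReal Topology
open MeasureTheory Filter

namespace Pool.Agent.H14.RB

open Pool.Agent.H3.RB

/-- The pole. -/
noncomputable def pole (d : ℕ) : Sph d :=
  ⟨EuclideanSpace.single 0 1, by simp⟩

lemma norm_sq_eq {d : ℕ} (p : EE d) : ‖p‖ ^ 2 = p 0 ^ 2 + ∑ k : Fin d, p k.succ ^ 2 := by
  rw [EuclideanSpace.real_norm_sq_eq, Fin.sum_univ_succ]

lemma sph_norm {d : ℕ} (p : Sph d) : ‖(p : EE d)‖ = 1 := by
  have := p.2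
  simpa using this

lemma inner_pole {d : ℕ} (p : EE d) : inner ℝ ((pole d : Sph d) : EE d) p = p 0 := by
  simp [pole, EuclideanSpace.inner_single_left]

lemma coord_le_norm {d : ℕ} (p : EE d) (i : Fin (d + 1)) : |p i| ≤ ‖p‖ := by
  have := PiLp.norm_apply_le p i
  simpa using this

lemma sub_pole_sq {d : ℕ} (p : Sph d) : ‖(p : EE d) - pole d‖ ^ 2 = 2 - 2 * (p : EE d) 0 := by
  rw [norm_sub_sq_real, sph_norm, sph_norm, real_inner_comm, inner_pole]; ring

lemma add_pole_sq {d : ℕ} (p : Sph d) : ‖(p : EE d) + pole d‖ ^ 2 = 2 + 2 * (p : EE d) 0 := by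
  rw [norm_add_sq_real, sph_norm, sph_norm, real_inner_comm, inner_pole]; ring

/-- The colouring. -/
noncomputable def colr (d : ℕ) (s : ℝ) (p : Sph d) : Fin (d + 1) :=
  open Classical in
  if h : ∃ k : Fin d, s ≤ (p : EE d) k.succ then h.choose.succ else 0

lemma colr_succ {d : ℕ} {s : ℝ} {p : Sph d} {k : Fin d} (h : colr d s p = k.succ) :
    s ≤ (p : EE d) k.succ := by
  unfold colr at h
  split_ifs at h with h1
  · rw [← h]; exact h1.choose_spec
  · exact absurd h.symm (Fin.succ_ne_zero k)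

lemma colr_zero {d : ℕ} {s : ℝ} {p : Sph d} (h : colr d s p = 0) (k : Fin d) :
    (p : EE d) k.succ < s := by
  unfold colr at h
  split_ifs at h with h1
  · exact absurd h (Fin.succ_ne_zero _)
  · push Not at h1
    exact h1 k

lemma sum_le_of_lt {d : ℕ} {s R : ℝ} (hd : 1 ≤ d) (hs : 0 < s) {p : Sph d}
    (h1 : R ≤ ‖(p : EE d) - pole d‖) (h2 : R ≤ ‖(p : EE d) + pole d‖) (hR : 0 ≤ R)
    (hsR : (d : ℝ) ^ 3 * s ^ 2 < R ^ 2 / 2)
    (h : ∀ k : Fin d, (p : EE d) k.succ < s) : ∑ k : Fin d, (p : EE d) k.succ ≤ -s := by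
  by_contra hcon
  push Not at hcon
  have hd1 : (1 : ℝ) ≤ d := by exact_mod_cast hd
  have hk : ∀ k : Fin d, |(p : EE d) k.succ| ≤ d * s := by
    intro k
    rw [abs_le]
    constructor
    · have e : ∑ j : Fin d, (p : EE d) j.succ
          = (p : EE d) k.succ + ∑ j ∈ Finset.univ.erase k, (p : EE d) j.succ :=
        (Finset.add_sum_erase _ _ (Finset.mem_univ k)).symm
      have e2 : ∑ j ∈ Finset.univ.erase k, (p : EE d) j.succ ≤
          ∑ j ∈ Finset.univ.erase k, s := Finset.sum_le_sum fun j _ => (h j).le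
      rw [Finset.sum_const, Finset.card_erase_of_mem (Finset.mem_univ k), Finset.card_univ,
        Fintype.card_fin, nsmul_eq_mul, Nat.cast_sub hd] at e2
      push_cast at e2
      nlinarith
    · have := h k
      nlinarith
  have hsum : ∑ k : Fin d, (p : EE d) k.succ ^ 2 ≤ d * (d * s) ^ 2 := by
    calc ∑ k : Fin d, (p : EE d) k.succ ^ 2 ≤ ∑ k : Fin d, (d * s) ^ 2 := by
          apply Finset.sum_le_sum
          intro k _
          rw [← sq_abs]
          exact pow_le_pow_left₀ (abs_nonneg _) (hk k) 2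
      _ = d * (d * s) ^ 2 := by simp
  have hn := norm_sq_eq (p : EE d)
  rw [sph_norm] at hn
  have a1 : R ^ 2 ≤ 2 - 2 * (p : EE d) 0 := by
    rw [← sub_pole_sq]; exact pow_le_pow_left₀ hR h1 2
  have a2 : R ^ 2 ≤ 2 + 2 * (p : EE d) 0 := by
    rw [← add_pole_sq]; exact pow_le_pow_left₀ hR h2 2
  have a3 : 1 - (p : EE d) 0 ^ 2 ≥ R ^ 2 / 2 := by
    rcases le_total 0 ((p : EE d) 0) with h0 | h0
    · nlinarith
    · nlinarith
  nlinarith

lemma col_compl {d : ℕ} {b : ℝ} (hd : 1 ≤ d) (hb : 0 < b) :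
    Col d b (DC (pole d) ((d : ℝ) ^ 3 * b))ᶜ := by
  have hd1 : (1 : ℝ) ≤ d := by exact_mod_cast hd
  have hd0 : (0 : ℝ) < d := by linarith
  refine ⟨colr d (d * b / 2), ?_⟩
  intro p hp q hq hpq hc
  have key : ∀ p : Sph d, p ∈ (DC (pole d) ((d : ℝ) ^ 3 * b))ᶜ → colr d (d * b / 2) p = 0 →
      ∑ k : Fin d, (p : EE d) k.succ ≤ -(d * b / 2) := by
    intro p hp hp0
    have hp' : ¬ (‖(p : EE d) - pole d‖ < (d : ℝ) ^ 3 * b ∨
      ‖(p : EE d) + pole d‖ < (d : ℝ) ^ 3 * b) := hp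
    push Not at hp'
    refine sum_le_of_lt hd (by positivity) hp'.1 hp'.2 (by positivity) ?_ (colr_zero hp0)
    have : (d : ℝ) ^ 3 * (d * b / 2) ^ 2 = (d : ℝ) ^ 5 * b ^ 2 / 4 := by ring
    rw [this]
    have h2 : ((d : ℝ) ^ 3 * b) ^ 2 / 2 = (d : ℝ) * ((d : ℝ) ^ 5 * b ^ 2 / 2) := by ring
    rw [h2]
    have h3 : 0 < (d : ℝ) ^ 5 * b ^ 2 := by positivity
    nlinarith
  rcases Fin.eq_zero_or_eq_succ (colr d (d * b / 2) p) with h0 | ⟨k, hk⟩
  · have hq0 : colr d (d * b / 2) q = 0 := by rw [← hc, h0]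
    have e1 := key p hp h0
    have e2 := key q hq hq0
    have e3 : -(d * b) < ∑ k : Fin d, ((p : EE d) + q) k.succ := by
      have hne : (Finset.univ : Finset (Fin d)).Nonempty := ⟨⟨0, hd⟩, Finset.mem_univ _⟩
      have : ∑ k : Fin d, (-b) < ∑ k : Fin d, ((p : EE d) + q) k.succ := by
        apply Finset.sum_lt_sum_of_nonempty hne
        intro k _
        have h1 := coord_le_norm ((p : EE d) + (q : EE d)) k.succ
        have h2 := neg_abs_le (((p : EE d) + q) k.succ)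
        linarith
      simp only [Finset.sum_neg_distrib, Finset.sum_const, Finset.card_univ, Fintype.card_fin,
        nsmul_eq_mul] at this
      exact this
    have e4 : ∑ k : Fin d, ((p : EE d) + q) k.succ
        = ∑ k : Fin d, (p : EE d) k.succ + ∑ k : Fin d, (q : EE d) k.succ := by
      rw [← Finset.sum_add_distrib]; rfl
    rw [e4] at e3
    linarith
  · have hq0 : colr d (d * b / 2) q = k.succ := by rw [← hc, hk]
    have e1 := colr_succ hk
    have e2 := colr_succ hq0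
    have e3 := coord_le_norm ((p : EE d) + (q : EE d)) k.succ
    have e4 : ((p : EE d) + q) k.succ = (p : EE d) k.succ + (q : EE d) k.succ := rfl
    have e5 := le_abs_self (((p : EE d) + q) k.succ)
    nlinarith

lemma DC_meas {d : ℕ} (x : Sph d) (r : ℝ) : MeasurableSet (DC x r) := by
  have h1 : IsOpen {p : Sph d | ‖(p : EE d) - x‖ < r} :=
    isOpen_lt (by fun_prop) continuous_const
  have h2 : IsOpen {p : Sph d | ‖(p : EE d) + x‖ < r} :=
    isOpen_lt (by fun_prop) continuous_const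
  exact (h1.union h2).measurableSet

lemma DC_sub_KK {d : ℕ} {R : ℝ} (hR : 0 < R) (hR2 : R ≤ 1 / 2) :
    DC (pole d) R ⊆ KK (pole d) (1 / (2 * R)) 0
      {p | 1 / 2 ≤ |inner ℝ ((pole d : Sph d) : EE d) (p : EE d)|} := by
  intro p hp
  set lam : ℝ := 1 / (2 * R) with hlam
  set a : ℝ := (p : EE d) 0 with ha
  have hn := norm_sq_eq (p : EE d)
  rw [sph_norm] at hn
  -- |a| close to one
  have hR4 : R ^ 2 ≤ 1 / 4 := by nlinarith
  have h1 : 2 - 2 * |a| < R ^ 2 := by
    rcases hp with h | h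
    · have : ‖(p : EE d) - pole d‖ ^ 2 < R ^ 2 := pow_lt_pow_left₀ h (norm_nonneg _) (by norm_num)
      rw [sub_pole_sq] at this
      have := le_abs_self a
      linarith
    · have : ‖(p : EE d) + pole d‖ ^ 2 < R ^ 2 := pow_lt_pow_left₀ h (norm_nonneg _) (by norm_num)
      rw [add_pole_sq] at this
      have := neg_abs_le a
      linarith
  have h2 : 7 / 8 ≤ |a| := by linarith
  have hle : |a| ≤ 1 := by
    have := coord_le_norm (p : EE d) 0
    rwa [sph_norm] at this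
  have hperp : ∑ k : Fin d, (p : EE d) k.succ ^ 2 ≤ R ^ 2 := by
    have e : a ^ 2 = |a| ^ 2 := (sq_abs a).symm
    have : ∑ k : Fin d, (p : EE d) k.succ ^ 2 = 1 - |a| ^ 2 := by
      rw [← e, ha]; linarith
    rw [this]
    nlinarith
  set A : EE d := AA ((pole d : Sph d) : EE d) lam 0 (p : EE d) with hA
  have hA0 : A 0 = a := by
    rw [hA]
    unfold AA
    rw [inner_pole]
    have : ((pole d : Sph d) : EE d) 0 = 1 := by simp [pole]
    simp only [smul_zero, sub_zero, PiLp.add_apply, PiLp.smul_apply, smul_eq_mul, this]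
    rw [← ha]; ring
  have hAk : ∀ k : Fin d, A k.succ = lam * (p : EE d) k.succ := by
    intro k
    rw [hA]
    unfold AA
    rw [inner_pole]
    have : ((pole d : Sph d) : EE d) k.succ = 0 := by simp [pole]
    simp only [smul_zero, sub_zero, PiLp.add_apply, PiLp.smul_apply, smul_eq_mul, this]
    ring
  have hAn : ‖A‖ ^ 2 = a ^ 2 + lam ^ 2 * ∑ k : Fin d, (p : EE d) k.succ ^ 2 := by
    rw [norm_sq_eq A, hA0, Finset.mul_sum]
    congr 1
    apply Finset.sum_congr rfl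
    intro k _
    rw [hAk]; ring
  have hlam2 : lam ^ 2 * ∑ k : Fin d, (p : EE d) k.succ ^ 2 ≤ 1 / 4 := by
    calc lam ^ 2 * ∑ k : Fin d, (p : EE d) k.succ ^ 2 ≤ lam ^ 2 * R ^ 2 :=
          mul_le_mul_of_nonneg_left hperp (by positivity)
      _ = 1 / 4 := by rw [hlam]; field_simp; norm_num
  have hlam0 : 0 ≤ lam ^ 2 * ∑ k : Fin d, (p : EE d) k.succ ^ 2 := by
    apply mul_nonneg (by positivity)
    exact Finset.sum_nonneg fun k _ => by positivity
  have hApos : 0 < ‖A‖ := by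
    rw [norm_pos_iff]
    intro h0
    have : a = 0 := by rw [← hA0, h0]; rfl
    rw [this, abs_zero] at h2
    norm_num at h2
  have hAle : ‖A‖ ≤ 2 * |a| := by
    apply le_of_sq_le_sq _ (by positivity)
    rw [hAn]
    have e : a ^ 2 = |a| ^ 2 := (sq_abs a).symm
    rw [e]
    nlinarith
  refine ⟨⟨‖A‖⁻¹ • A, ?_⟩, ?_, ‖A‖, hApos, ?_⟩
  · simp [norm_smul, hApos.ne']
  · show 1 / 2 ≤ |inner ℝ ((pole d : Sph d) : EE d) (‖A‖⁻¹ • A)|
    rw [inner_pole]
    have : (‖A‖⁻¹ • A) 0 = ‖A‖⁻¹ * a := by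
      rw [← hA0]; rfl
    rw [this, abs_mul, abs_inv, abs_norm, ← div_eq_inv_mul, le_div_iff₀ hApos]
    linarith
  · show A = ‖A‖ • (‖A‖⁻¹ • A)
    rw [smul_smul, mul_inv_cancel₀ hApos.ne', one_smul]

theorem t_FNT : S_FNT := by
  intro hPRB hVOL d hd
  have hd1 : (1 : ℝ) ≤ d := by exact_mod_cast hd
  have hd0 : (0 : ℝ) < d := by linarith
  obtain ⟨K, hK⟩ : ∃ K : ℝ, K = (d : ℝ) ^ 3 := ⟨_, rfl⟩
  have hK1 : 1 ≤ K := by rw [hK]; exact one_le_pow₀ hd1
  have hK0 : 0 < K := by linarith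
  refine ⟨2 ^ (d + 1) * (2 * K) ^ d, fun ρ hρ => ?_⟩
  have hm0 : 0 < min ρ 1 := lt_min hρ one_pos
  have hm1 : min ρ 1 ≤ ρ := min_le_left _ _
  have hm2 : min ρ 1 ≤ 1 := min_le_right _ _
  set b : ℝ := min ρ 1 / (2 * K) with hb
  have hb0 : 0 < b := by positivity
  have hKb : K * b = min ρ 1 / 2 := by rw [hb]; field_simp
  have hbK : b ≤ K * b := by nlinarith
  refine ⟨b, hb0, by linarith, 1, fun _ => pole d, fun _ => K * b, DC (pole d) (K * b), ?_, ?_⟩
  · refine ⟨DC_meas _ _, ?_, ?_, ?_, ?_⟩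
    · rw [hK]; exact col_compl hd hb0
    · intro i
      exact ⟨hbK, by linarith⟩
    · intro i j hij
      exact absurd (Subsingleton.elim i j) hij
    · intro p hp
      exact ⟨0, hp⟩
  · intro i
    rw [Set.inter_self]
    have hR0 : 0 < K * b := by positivity
    have hR2 : K * b ≤ 1 / 2 := by linarith
    have hsub := DC_sub_KK (d := d) hR0 hR2
    have hTm : MeasurableSet {p : Sph d | 1 / 2 ≤ |inner ℝ ((pole d : Sph d) : EE d) (p : EE d)|} := by
      apply IsClosed.measurableSet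
      apply isClosed_le continuous_const
      fun_prop
    have hlam : 1 ≤ 1 / (2 * (K * b)) := by
      rw [le_div_iff₀ (by positivity)]; linarith
    obtain ⟨_, hv⟩ := hVOL d (pole d) (1 / (2 * (K * b))) (1 / 2) 0 _ hlam (by norm_num)
      (by norm_num) (inner_zero_right _) hTm (fun p hp => hp)
    refine (measure_mono hsub).trans (hv.trans ?_)
    have : unif d {p : Sph d | 1 / 2 ≤ |inner ℝ ((pole d : Sph d) : EE d) (p : EE d)|} ≤ 1 := by
      have := hPRB d
      exact prob_le_one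
    refine (mul_le_mul_right this _).trans ?_
    rw [mul_one]
    apply ENNReal.ofReal_le_ofReal
    apply le_of_eq
    have e : (1 : ℝ) / ((1 / 2) ^ (d + 1) * (1 / (2 * (K * b))) ^ d)
        = 2 ^ (d + 1) * (2 * (K * b)) ^ d := by
      rw [one_div, mul_inv, ← inv_pow, ← inv_pow, one_div, one_div, inv_inv, inv_inv]
    rw [e, ← mul_assoc 2 K b, mul_pow (2 * K) b, mul_assoc]

end Pool.Agent.H14.RB
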